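import Mathlib
import Pool.Agent.Work.MP_0532f7_lc.OracleDefs
import Pool.Agent.Work.MP_0532f7_lc.OMain3

/-!
Relative to a random oracle there is no optimal propositional proof system.
-/

namespace Pool.Agent.Results.MP_0532f7_lc.RandomOracle

open Pool.Agent.Work.MP_0532f7_lc MeasureTheory

/-- For every oracle `A`, for almost every oracle `R`: no Cook-Reckhow proof system relative to the
join of `A` and `R` is optimal; moreover, for every `f` computable in polynomial time relative to
the join, all of whose values are tautologies relative to the join, there is a map `g` into these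
tautologies, computable in polynomial time relative to `A` alone, such that for infinitely many `m`
all `f`-proofs of the tautology `g (1 ^ m)` are longer than `2 ^ m`. -/
theorem result (A : List Bool → Bool) : ∀ᵐ R ∂randomOracle,
    (¬ ∃ f, OptimalRel (ojoin A R) f) ∧
    ∀ f, PolyTimeRel (ojoin A R) f → Set.range f ⊆ OTAUT (ojoin A R) →
      ∃ g, PolyTimeRel A g ∧ Set.range g ⊆ OTAUT (ojoin A R) ∧
        ∀ m₀, ∃ m, m₀ ≤ m ∧ ∀ w, f w = g (List.replicate m true) → 2 ^ m < w.length := by
  filter_upwards [ae_all A] with R hR
  exact ⟨fun ⟨f, hf⟩ => not_optimal A R hR f hf, fun f hf hs => hard_of A R hR f hf hs⟩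

end Pool.Agent.Results.MP_0532f7_lc.RandomOracle
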